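import Mathlib

set_option autoImplicit false

namespace Pool.Agent.H29.BW

open Finset

/-- Gordan's alternative for a finite matrix game: either a nonnegative row vector makes every
column positive, or a probability distribution on the columns makes every row nonpositive. -/
theorem gordan {ι κ : Type*} [Fintype ι] [Fintype κ] (M : κ → ι → ℝ) :
    (∃ p : ι → ℝ, (∀ i, 0 ≤ p i) ∧ ∀ j, 0 < ∑ i, p i * M j i) ∨
    (∃ l : κ → ℝ, (∀ j, 0 ≤ l j) ∧ ∑ j, l j = 1 ∧ ∀ i, ∑ j, l j * M j i ≤ 0) := by
  classical
  let L : (κ → ℝ) →ₗ[ℝ] (ι → ℝ) :=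
    { toFun := fun l i => ∑ j, l j * M j i
      map_add' := by
        intro x y
        funext i
        simp [add_mul, Finset.sum_add_distrib]
      map_smul' := by
        intro c x
        funext i
        simp [Finset.mul_sum, mul_assoc] }
  let K : Set (ι → ℝ) := L '' stdSimplex ℝ κ
  let N : Set (ι → ℝ) := {z | ∀ i, z i ≤ 0}
  have hKc : IsCompact K := (isCompact_stdSimplex ℝ κ).image (LinearMap.continuous_of_finiteDimensional L)
  have hKv : Convex ℝ K := (convex_stdSimplex ℝ κ).linear_image L
  have hNc : IsClosed N := by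
    have : N = ⋂ i, {z : ι → ℝ | z i ≤ 0} := by ext z; simp [N]
    rw [this]
    exact isClosed_iInter fun i => isClosed_le (continuous_apply i) continuous_const
  have hNv : Convex ℝ N := by
    intro x hx y hy a b ha hb _ i
    have h1 := mul_nonpos_of_nonneg_of_nonpos ha (hx i)
    have h2 := mul_nonpos_of_nonneg_of_nonpos hb (hy i)
    simpa using add_nonpos h1 h2
  by_cases hd : Disjoint K N
  · left
    obtain ⟨f, u, v, h1, h2, h3⟩ := geometric_hahn_banach_compact_closed hKv hKc hNv hNc hd
    have hv : v < 0 := by
      have := h3 0 (fun i => le_rfl)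
      simpa using this
    have hfe : ∀ z : ι → ℝ, f z = ∑ i, z i * f (Pi.single i 1) := by
      intro z
      conv_lhs => rw [pi_eq_sum_univ' z]
      rw [map_sum]
      refine Finset.sum_congr rfl fun i _ => ?_
      rw [map_smul, smul_eq_mul]
    refine ⟨fun i => - f (Pi.single i 1), fun i => ?_, fun j => ?_⟩
    · by_contra hneg
      push Not at hneg
      have hpos : 0 < f (Pi.single i 1) := by linarith
      -- take a large negative multiple
      have h4 := h3 ((v / f (Pi.single i 1)) • Pi.single i (1 : ℝ)) (by
        intro j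
        simp only [Pi.smul_apply, smul_eq_mul, Pi.single_apply]
        split_ifs
        · rw [mul_one]
          exact div_nonpos_of_nonpos_of_nonneg hv.le hpos.le
        · simp)
      rw [map_smul, smul_eq_mul, div_mul_cancel₀ _ hpos.ne'] at h4
      exact lt_irrefl _ h4
    · have h4 := h1 (L (Pi.single j 1)) ⟨_, single_mem_stdSimplex ℝ j, rfl⟩
      have h5 : L (Pi.single j 1) = M j := by
        funext i
        change ∑ j', (Pi.single j 1 : κ → ℝ) j' * M j' i = M j i
        rw [Finset.sum_eq_single j]
        · simp
        · intro b _ hb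
          simp [hb]
        · simp
      rw [h5, hfe] at h4
      have h6 : ∑ i, -f (Pi.single i 1) * M j i = - ∑ i, M j i * f (Pi.single i 1) := by
        rw [← Finset.sum_neg_distrib]
        exact Finset.sum_congr rfl fun i _ => by ring
      rw [h6]
      linarith
  · right
    rw [Set.not_disjoint_iff] at hd
    obtain ⟨z, ⟨l, hl, rfl⟩, hz⟩ := hd
    exact ⟨l, hl.1, hl.2, hz⟩

/-- Weighted Turan inequality (Caro-Wei): if every conflict-free subset of `S` has at most `k`
elements then the conflicting pairs carry at least a fraction `1/k` of the squared weight. -/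
theorem turan {J : Type*} [DecidableEq J] (conf : J → J → Prop) [DecidableRel conf]
    (hrefl : ∀ j, conf j j) (hsymm : ∀ i j, conf i j → conf j i) (w : J → ℝ) (hw : ∀ j, 0 ≤ w j) :
    ∀ (k : ℕ) (S : Finset J),
      (∀ T ⊆ S, (∀ i ∈ T, ∀ j ∈ T, i ≠ j → ¬ conf i j) → T.card ≤ k) →
      (∑ j ∈ S, w j) ^ 2 ≤ k * ∑ i ∈ S, ∑ j ∈ S, (if conf i j then w i * w j else 0) := by
  intro k
  induction k with
  | zero =>
    intro S h
    have hS : S = ∅ := by
      by_contra hne
      obtain ⟨j, hj⟩ := Finset.nonempty_iff_ne_empty.mpr hne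
      have := h {j} (by simpa using hj) (by
        intro a ha b hb hab
        simp only [Finset.mem_singleton] at ha hb
        exact absurd (ha.trans hb.symm) hab)
      simp at this
    simp [hS]
  | succ k ih =>
    intro S h
    by_cases hS : S = ∅
    · simp [hS]
    obtain ⟨e, heS, hmin⟩ := Finset.exists_min_image S
      (fun i => ∑ j ∈ S, (if conf i j then w j else 0)) (Finset.nonempty_iff_ne_empty.mpr hS)
    set N := S.filter (fun j => conf e j) with hN
    set S' := S.filter (fun j => ¬ conf e j) with hS'
    set D := ∑ j ∈ N, w j with hD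
    have hDe : ∑ j ∈ S, (if conf e j then w j else 0) = D := by
      rw [hD, hN, Finset.sum_filter]
    have hDnn : 0 ≤ D := Finset.sum_nonneg fun j _ => hw j
    have hsplit : ∑ j ∈ S, w j = D + ∑ j ∈ S', w j := by
      rw [hD, hN, hS', Finset.sum_filter_add_sum_filter_not]
    have hann : 0 ≤ ∑ j ∈ S', w j := Finset.sum_nonneg fun j _ => hw j
    have hIH := ih S' (by
      intro T hT hconf
      have heT : e ∉ T := by
        intro he
        have := (Finset.mem_filter.mp (hT he)).2
        exact this (hrefl e)
      have h2 := h (insert e T) (by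
        intro x hx
        rw [Finset.mem_insert] at hx
        rcases hx with rfl | hx
        · exact heS
        · exact (Finset.mem_filter.mp (hT hx)).1) (by
        intro i hi j hj hij
        rw [Finset.mem_insert] at hi hj
        rcases hi with rfl | hi <;> rcases hj with rfl | hj
        · exact absurd rfl hij
        · exact (Finset.mem_filter.mp (hT hj)).2
        · intro hc
          exact (Finset.mem_filter.mp (hT hi)).2 (hsymm _ _ hc)
        · exact hconf i hi j hj hij)
      rw [Finset.card_insert_of_notMem heT] at h2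
      omega)
    set C' := ∑ i ∈ S', ∑ j ∈ S', (if conf i j then w i * w j else 0) with hC'
    set C := ∑ i ∈ S, ∑ j ∈ S, (if conf i j then w i * w j else 0) with hC
    have hterm : ∀ i j, 0 ≤ (if conf i j then w i * w j else 0) := by
      intro i j
      split_ifs
      · exact mul_nonneg (hw i) (hw j)
      · exact le_rfl
    have hC'nn : 0 ≤ C' := Finset.sum_nonneg fun i _ => Finset.sum_nonneg fun j _ => hterm i j
    have hCge : C' + D ^ 2 ≤ C := by
      have h1 : C = ∑ i ∈ N, ∑ j ∈ S, (if conf i j then w i * w j else 0) +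
          ∑ i ∈ S', ∑ j ∈ S, (if conf i j then w i * w j else 0) := by
        rw [hC, hN, hS', Finset.sum_filter_add_sum_filter_not]
      have h2 : C' ≤ ∑ i ∈ S', ∑ j ∈ S, (if conf i j then w i * w j else 0) := by
        refine Finset.sum_le_sum fun i _ => ?_
        exact Finset.sum_le_sum_of_subset_of_nonneg (Finset.filter_subset _ _)
          fun j _ _ => hterm i j
      have h3 : D ^ 2 ≤ ∑ i ∈ N, ∑ j ∈ S, (if conf i j then w i * w j else 0) := by
        have h4 : ∀ i ∈ N, w i * D ≤ ∑ j ∈ S, (if conf i j then w i * w j else 0) := by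
          intro i hi
          have h5 : ∑ j ∈ S, (if conf i j then w i * w j else 0) =
              w i * ∑ j ∈ S, (if conf i j then w j else 0) := by
            rw [Finset.mul_sum]
            exact Finset.sum_congr rfl fun j _ => by split_ifs <;> simp
          rw [h5]
          refine mul_le_mul_of_nonneg_left ?_ (hw i)
          have := hmin i (Finset.mem_filter.mp hi).1
          rwa [hDe] at this
        calc D ^ 2 = ∑ i ∈ N, w i * D := by rw [← Finset.sum_mul, ← hD]; ring
          _ ≤ _ := Finset.sum_le_sum h4
      linarith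
    set a := ∑ j ∈ S', w j with ha
    have hk0 : (0 : ℝ) ≤ k := Nat.cast_nonneg k
    have hkey : 2 * a * D ≤ C' + k * D ^ 2 := by
      have h1 : (2 * a * D) ^ 2 ≤ (C' + k * D ^ 2) ^ 2 := by
        have h2 : a ^ 2 * D ^ 2 ≤ (k * C') * D ^ 2 := mul_le_mul_of_nonneg_right hIH (sq_nonneg D)
        nlinarith [sq_nonneg (C' - k * D ^ 2)]
      have h3 : 0 ≤ C' + k * D ^ 2 := by positivity
      exact le_of_sq_le_sq h1 h3
    rw [hsplit]
    push_cast
    have h7 : ((k : ℝ) + 1) * (C' + D ^ 2) ≤ ((k : ℝ) + 1) * C :=
      mul_le_mul_of_nonneg_left hCge (by positivity)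
    nlinarith

end Pool.Agent.H29.BW
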