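import Mathlib

set_option autoImplicit false

namespace Pool.Agent.H29.BW

open Finset SimpleGraph

universe u

/-- powers against falling factorials -/
lemma pow_le_desc (d : ℕ) : ∀ t : ℕ, d ^ (t + 1) ≤ d.descFactorial (t + 1) + (t + 1).choose 2 * d ^ t := by
  intro t
  induction t with
  | zero => simp
  | succ t ih =>
    have h1 : (t + 2).choose 2 = (t + 1) + (t + 1).choose 2 := by
      rw [Nat.choose_succ_succ' (t + 1) 1]
      simp
    have h2 : d.descFactorial (t + 2) = (d - (t + 1)) * d.descFactorial (t + 1) :=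
      Nat.descFactorial_succ _ _
    have h3 : d * d.descFactorial (t + 1) ≤
        (d - (t + 1)) * d.descFactorial (t + 1) + (t + 1) * d.descFactorial (t + 1) := by
      rw [← Nat.add_mul]
      exact Nat.mul_le_mul_right _ (by omega)
    have h4 : (t + 1) * d.descFactorial (t + 1) ≤ (t + 1) * d ^ (t + 1) :=
      Nat.mul_le_mul_left _ (Nat.descFactorial_le_pow _ _)
    calc d ^ (t + 1 + 1) = d * d ^ (t + 1) := by ring
      _ ≤ d * (d.descFactorial (t + 1) + (t + 1).choose 2 * d ^ t) := Nat.mul_le_mul_left _ ih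
      _ = d * d.descFactorial (t + 1) + (t + 1).choose 2 * d ^ (t + 1) := by ring
      _ ≤ ((d - (t + 1)) * d.descFactorial (t + 1) + (t + 1) * d ^ (t + 1)) +
          (t + 1).choose 2 * d ^ (t + 1) := by
            have := h3.trans (Nat.add_le_add_left h4 _)
            exact Nat.add_le_add_right this _
      _ = d.descFactorial (t + 1 + 1) + (t + 1 + 1).choose 2 * d ^ (t + 1) := by
            rw [show t + 1 + 1 = t + 2 from rfl, h1, h2]; ring

/-- Two independent sets of size `s` in a graph without induced `K_{r,t}` span at most `δ s^2`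
adjacent pairs, once `s δ^r ≥ t - 1 + r(r-1)/2`. -/
theorem kst {V : Type u} [DecidableEq V] (G : SimpleGraph V) [DecidableRel G.Adj] {r t : ℕ}
    (hr : 1 ≤ r) (ht : 1 ≤ t) (hG : IsEmpty (completeBipartiteGraph (Fin r) (Fin t) ↪g G))
    {I J : Finset V}
    (hI : G.IsIndepSet (I : Set V)) (hJ : G.IsIndepSet (J : Set V)) {s : ℕ} (hIs : I.card = s)
    (hJs : J.card = s) {δ : ℝ} (hδ : 0 ≤ δ) (hs : ((t - 1 + r.choose 2 : ℕ) : ℝ) ≤ s * δ ^ r) :
    ∑ v ∈ J, ((I.filter (fun x => G.Adj v x)).card : ℝ) ≤ δ * (s : ℝ) ^ 2 := by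
  classical
  by_contra hcon
  push Not at hcon
  obtain ⟨r, rfl⟩ : ∃ r', r = r' + 1 := ⟨r - 1, by omega⟩
  have hspos : 0 < s := by
    rcases Nat.eq_zero_or_pos s with h | h
    · have hJ0 : J = ∅ := by rw [← Finset.card_eq_zero, hJs, h]
      rw [h, hJ0] at hcon
      simp at hcon
    · exact h
  set d : V → ℕ := fun v => (I.filter (fun x => G.Adj v x)).card with hd
  -- common neighbourhoods are small
  have hN : ∀ T ∈ powersetCard (r + 1) I,
      (J.filter (fun v => ∀ x ∈ T, G.Adj v x)).card ≤ t - 1 := by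
    intro T hT
    rw [mem_powersetCard] at hT
    by_contra hbig
    push Not at hbig
    obtain ⟨T', hT', hT'card⟩ := Finset.exists_subset_card_eq
      (show t ≤ (J.filter (fun v => ∀ x ∈ T, G.Adj v x)).card by omega)
    have e : Fin (r + 1) ≃ T := (T.equivFinOfCardEq hT.2).symm
    have e' : Fin t ≃ T' := (T'.equivFinOfCardEq hT'card).symm
    have hT'J : ∀ x ∈ T', x ∈ J := fun x hx => (Finset.mem_filter.mp (hT' hx)).1
    have hadj : ∀ x ∈ T', ∀ y ∈ T, G.Adj x y := fun x hx y hy =>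
      (Finset.mem_filter.mp (hT' hx)).2 y hy
    have hIT : ∀ x ∈ T, ∀ y ∈ T, ¬ G.Adj x y := fun x hx y hy h =>
      hI (hT.1 hx) (hT.1 hy) h.ne h
    have hJT : ∀ x ∈ T', ∀ y ∈ T', ¬ G.Adj x y := fun x hx y hy h =>
      hJ (hT'J x hx) (hT'J y hy) h.ne h
    apply hG.false
    refine { toFun := Sum.elim (fun i => (e i).1) (fun i => (e' i).1), inj' := ?_, map_rel_iff' := ?_ }
    · rintro (a | a) (b | b) hab
      · simp only [Sum.elim_inl] at hab
        rw [e.injective (Subtype.ext hab)]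
      · simp only [Sum.elim_inl, Sum.elim_inr] at hab
        exact absurd hab.symm (hadj _ (e' b).2 _ (e a).2).ne
      · simp only [Sum.elim_inl, Sum.elim_inr] at hab
        exact absurd hab (hadj _ (e' a).2 _ (e b).2).ne
      · simp only [Sum.elim_inr] at hab
        rw [e'.injective (Subtype.ext hab)]
    · rintro (a | a) (b | b)
      · change G.Adj (e a).1 (e b).1 ↔
          (completeBipartiteGraph (Fin (r + 1)) (Fin t)).Adj (Sum.inl a) (Sum.inl b)
        simp [hIT _ (e a).2 _ (e b).2]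
      · change G.Adj (e a).1 (e' b).1 ↔
          (completeBipartiteGraph (Fin (r + 1)) (Fin t)).Adj (Sum.inl a) (Sum.inr b)
        simp [(hadj _ (e' b).2 _ (e a).2).symm]
      · change G.Adj (e' a).1 (e b).1 ↔
          (completeBipartiteGraph (Fin (r + 1)) (Fin t)).Adj (Sum.inr a) (Sum.inl b)
        simp [hadj _ (e' a).2 _ (e b).2]
      · change G.Adj (e' a).1 (e' b).1 ↔
          (completeBipartiteGraph (Fin (r + 1)) (Fin t)).Adj (Sum.inr a) (Sum.inr b)
        simp [hJT _ (e' a).2 _ (e' b).2]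
  -- double count
  have hdc : ∑ v ∈ J, (d v).choose (r + 1) ≤ s.choose (r + 1) * (t - 1) := by
    have h1 := Finset.sum_card_bipartiteAbove_eq_sum_card_bipartiteBelow
      (s := J) (t := powersetCard (r + 1) I) (fun v T => ∀ x ∈ T, G.Adj v x)
    have h2 : ∀ v ∈ J, (d v).choose (r + 1) =
        (bipartiteAbove (fun v (T : Finset V) => ∀ x ∈ T, G.Adj v x) (powersetCard (r + 1) I) v).card := by
      intro v _
      rw [hd, ← Finset.card_powersetCard]
      congr 1
      ext T
      simp only [mem_powersetCard, Finset.mem_bipartiteAbove]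
      constructor
      · rintro ⟨h3, h4⟩
        exact ⟨⟨fun x hx => (Finset.mem_filter.mp (h3 hx)).1, h4⟩,
          fun x hx => (Finset.mem_filter.mp (h3 hx)).2⟩
      · rintro ⟨⟨h3, h4⟩, h5⟩
        exact ⟨fun x hx => Finset.mem_filter.mpr ⟨h3 hx, h5 x hx⟩, h4⟩
    rw [Finset.sum_congr rfl h2, h1]
    calc ∑ T ∈ powersetCard (r + 1) I, _ ≤ ∑ _T ∈ powersetCard (r + 1) I, (t - 1) := by
          refine Finset.sum_le_sum fun T hT => ?_
          exact hN T hT
      _ = s.choose (r + 1) * (t - 1) := by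
          rw [Finset.sum_const, card_powersetCard, hIs, smul_eq_mul]
  have hdesc : ∑ v ∈ J, (d v).descFactorial (r + 1) ≤ (t - 1) * s ^ (r + 1) := by
    have h1 : ∑ v ∈ J, (d v).descFactorial (r + 1) =
        (r + 1).factorial * ∑ v ∈ J, (d v).choose (r + 1) := by
      rw [Finset.mul_sum]
      exact Finset.sum_congr rfl fun v _ => Nat.descFactorial_eq_factorial_mul_choose _ _
    rw [h1]
    calc (r + 1).factorial * ∑ v ∈ J, (d v).choose (r + 1)
        ≤ (r + 1).factorial * (s.choose (r + 1) * (t - 1)) := Nat.mul_le_mul_left _ hdc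
      _ = s.descFactorial (r + 1) * (t - 1) := by
          rw [Nat.descFactorial_eq_factorial_mul_choose]; ring
      _ ≤ s ^ (r + 1) * (t - 1) := Nat.mul_le_mul_right _ (Nat.descFactorial_le_pow _ _)
      _ = (t - 1) * s ^ (r + 1) := by ring
  have hds : ∀ v, d v ≤ s := fun v => by
    rw [← hIs]
    exact Finset.card_le_card (Finset.filter_subset _ _)
  have hpow : ∑ v ∈ J, (d v) ^ (r + 1) ≤ (t - 1 + (r + 1).choose 2) * s ^ (r + 1) := by
    calc ∑ v ∈ J, (d v) ^ (r + 1)
        ≤ ∑ v ∈ J, ((d v).descFactorial (r + 1) + (r + 1).choose 2 * (d v) ^ r) :=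
          Finset.sum_le_sum fun v _ => pow_le_desc _ _
      _ = ∑ v ∈ J, (d v).descFactorial (r + 1) + (r + 1).choose 2 * ∑ v ∈ J, (d v) ^ r := by
          rw [Finset.sum_add_distrib, Finset.mul_sum]
      _ ≤ (t - 1) * s ^ (r + 1) + (r + 1).choose 2 * ∑ _v ∈ J, s ^ r := by
          refine Nat.add_le_add hdesc (Nat.mul_le_mul_left _ ?_)
          exact Finset.sum_le_sum fun v _ => Nat.pow_le_pow_left (hds v) _
      _ = (t - 1 + (r + 1).choose 2) * s ^ (r + 1) := by
          rw [Finset.sum_const, hJs, smul_eq_mul]; ring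
  -- power mean
  have hpm := pow_sum_div_card_le_sum_pow (s := J) (f := fun v => (d v : ℝ))
    (fun v _ => Nat.cast_nonneg _) r
  rw [hJs] at hpm
  have hsR : (0 : ℝ) < s := by exact_mod_cast hspos
  have h1 : (δ * (s : ℝ) ^ 2) ^ (r + 1) / (s : ℝ) ^ r < ∑ v ∈ J, (d v : ℝ) ^ (r + 1) := by
    refine lt_of_lt_of_le ?_ hpm
    refine div_lt_div_of_pos_right ?_ (by positivity)
    exact pow_lt_pow_left₀ hcon (by positivity) (by omega)
  have h2 : (∑ v ∈ J, (d v : ℝ) ^ (r + 1)) ≤
      ((t - 1 + (r + 1).choose 2 : ℕ) : ℝ) * (s : ℝ) ^ (r + 1) := by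
    exact_mod_cast hpow
  have h3 : (δ * (s : ℝ) ^ 2) ^ (r + 1) / (s : ℝ) ^ r = (s * δ ^ (r + 1)) * (s : ℝ) ^ (r + 1) := by
    rw [div_eq_iff (by positivity)]
    ring
  rw [h3] at h1
  have h4 : ((t - 1 + (r + 1).choose 2 : ℕ) : ℝ) * (s : ℝ) ^ (r + 1) ≤
      (s * δ ^ (r + 1)) * (s : ℝ) ^ (r + 1) :=
    mul_le_mul_of_nonneg_right hs (by positivity)
  linarith

end Pool.Agent.H29.BW
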