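import Mathlib
import Pool.Agent.H58.TreeAlpha
import Pool.Agent.H29.BW.Game
import Pool.Agent.H29.BW.KST

set_option autoImplicit false

namespace Pool.Agent.H29.BW

open Finset SimpleGraph Pool.Agent.H58.TreeAlpha

universe u

variable {V : Type u} [Fintype V]

/-- induced matching across the cut `A` -/
def CutMatch (G : SimpleGraph V) (A : Set V) (M : Finset (V × V)) : Prop :=
  (∀ p ∈ M, G.Adj p.1 p.2 ∧ p.1 ∈ A ∧ p.2 ∉ A) ∧
  ∀ p ∈ M, ∀ q ∈ M, p ≠ q →
    p.1 ≠ q.1 ∧ p.2 ≠ q.2 ∧ ¬ G.Adj p.1 q.1 ∧ ¬ G.Adj p.1 q.2 ∧ ¬ G.Adj p.2 q.2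

/-- the conflict relation between crossing edges -/
def Conf (G : SimpleGraph V) (e f : V × V) : Prop :=
  e.1 = f.1 ∨ e.2 = f.2 ∨ G.Adj e.1 f.1 ∨ G.Adj e.1 f.2 ∨ G.Adj e.2 f.1 ∨ G.Adj e.2 f.2

open Classical in
/-- sampling identity: a bilinear form of the endpoint marginals -/
lemma bilin {E : Finset (V × V)} (ξ : V × V → ℝ) (φ : V → V → ℝ) :
    ∑ v : V, ∑ w : V, (∑ e ∈ E, ξ e * ((if v = e.1 then 1 else 0) + (if v = e.2 then 1 else 0))) *
      (∑ f ∈ E, ξ f * ((if w = f.1 then 1 else 0) + (if w = f.2 then 1 else 0))) * φ v w =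
    ∑ e ∈ E, ∑ f ∈ E, ξ e * ξ f * (φ e.1 f.1 + φ e.1 f.2 + φ e.2 f.1 + φ e.2 f.2) := by
  have h1 : ∀ v w : V, (∑ e ∈ E, ξ e * ((if v = e.1 then 1 else 0) + (if v = e.2 then 1 else 0))) *
      (∑ f ∈ E, ξ f * ((if w = f.1 then 1 else 0) + (if w = f.2 then 1 else 0))) * φ v w =
      ∑ e ∈ E, ∑ f ∈ E, ξ e * ξ f *
        (((if v = e.1 then 1 else 0) + (if v = e.2 then 1 else 0)) *
        ((if w = f.1 then 1 else 0) + (if w = f.2 then 1 else 0)) * φ v w) := by
    intro v w
    rw [Finset.sum_mul_sum, Finset.sum_mul]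
    refine Finset.sum_congr rfl fun e _ => ?_
    rw [Finset.sum_mul]
    exact Finset.sum_congr rfl fun f _ => by ring
  simp_rw [h1]
  have h2 : ∀ v : V, ∑ w : V, ∑ e ∈ E, ∑ f ∈ E, ξ e * ξ f *
        (((if v = e.1 then 1 else 0) + (if v = e.2 then 1 else 0)) *
        ((if w = f.1 then 1 else 0) + (if w = f.2 then 1 else 0)) * φ v w) =
      ∑ e ∈ E, ∑ f ∈ E, ξ e * ξ f *
        (((if v = e.1 then 1 else 0) + (if v = e.2 then 1 else 0)) * (φ v f.1 + φ v f.2)) := by
    intro v
    rw [Finset.sum_comm]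
    refine Finset.sum_congr rfl fun e _ => ?_
    rw [Finset.sum_comm]
    refine Finset.sum_congr rfl fun f _ => ?_
    rw [← Finset.mul_sum]
    congr 1
    simp_rw [mul_assoc]
    rw [← Finset.mul_sum]
    congr 1
    simp_rw [add_mul, ite_mul, one_mul, zero_mul]
    rw [Finset.sum_add_distrib]
    simp
  simp_rw [h2]
  rw [Finset.sum_comm]
  refine Finset.sum_congr rfl fun e _ => ?_
  rw [Finset.sum_comm]
  refine Finset.sum_congr rfl fun f _ => ?_
  rw [← Finset.mul_sum]
  congr 1
  simp_rw [add_mul, ite_mul, one_mul, zero_mul]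
  rw [Finset.sum_add_distrib]
  simp
  ring

open Classical in
/-- a bilinear form of the marginals of a distribution on vertex sets -/
lemma bilin_sets (F : Finset (Finset V)) (y : Finset V → ℝ) (φ : V → V → ℝ) :
    ∑ v : V, ∑ w : V, (∑ J ∈ F, y J * (if v ∈ J then 1 else 0)) *
      (∑ I ∈ F, y I * (if w ∈ I then 1 else 0)) * φ v w =
    ∑ I ∈ F, ∑ J ∈ F, y I * y J * ∑ v ∈ J, ∑ w ∈ I, φ v w := by
  have h1 : ∀ v w : V, (∑ J ∈ F, y J * (if v ∈ J then 1 else 0)) *
      (∑ I ∈ F, y I * (if w ∈ I then 1 else 0)) * φ v w =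
      ∑ J ∈ F, ∑ I ∈ F, y I * y J * ((if v ∈ J then 1 else 0) * ((if w ∈ I then 1 else 0) * φ v w)) := by
    intro v w
    rw [Finset.sum_mul_sum, Finset.sum_mul]
    refine Finset.sum_congr rfl fun e _ => ?_
    rw [Finset.sum_mul]
    exact Finset.sum_congr rfl fun f _ => by ring
  simp_rw [h1]
  have h2 : ∀ v : V, ∑ w : V, ∑ J ∈ F, ∑ I ∈ F,
      y I * y J * ((if v ∈ J then 1 else 0) * ((if w ∈ I then 1 else 0) * φ v w)) =
      ∑ J ∈ F, ∑ I ∈ F, y I * y J * ((if v ∈ J then 1 else 0) * ∑ w ∈ I, φ v w) := by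
    intro v
    rw [Finset.sum_comm]
    refine Finset.sum_congr rfl fun J _ => ?_
    rw [Finset.sum_comm]
    refine Finset.sum_congr rfl fun I _ => ?_
    rw [← Finset.mul_sum, ← Finset.mul_sum]
    congr 2
    simp_rw [ite_mul, one_mul, zero_mul]
    rw [Finset.sum_ite_mem, Finset.univ_inter]
  simp_rw [h2]
  rw [Finset.sum_comm, Finset.sum_comm (s := F) (t := F)]
  refine Finset.sum_congr rfl fun J _ => ?_
  rw [Finset.sum_comm]
  refine Finset.sum_congr rfl fun I _ => ?_
  rw [← Finset.mul_sum]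
  congr 1
  simp_rw [ite_mul, one_mul, zero_mul]
  rw [Finset.sum_ite_mem, Finset.univ_inter]

/-- **Cut cover lemma.** In a graph without induced `K_{r,t}`, the edges across a cut with no
induced crossing matching of size `k+1` are covered by a set of independence number less than `s`,
whenever `s δ^r ≥ t - 1 + r(r-1)/2` and `k (4 δ + 4 / s) < 1` for some `δ ≥ 0`. -/
theorem exists_cover (G : SimpleGraph V) {r t k s : ℕ} (hr : 1 ≤ r) (ht : 1 ≤ t)
    (hG : IsEmpty (completeBipartiteGraph (Fin r) (Fin t) ↪g G)) (A : Set V)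
    (hA : ∀ M : Finset (V × V), CutMatch G A M → M.card ≤ k) {δ : ℝ} (hδ : 0 ≤ δ)
    (hs : ((t - 1 + r.choose 2 : ℕ) : ℝ) ≤ s * δ ^ r) (hs0 : 1 ≤ s) (hk : (k : ℝ) * (4 * δ + 4 / s) < 1) :
    ∃ S : Set V, al G S ≤ s - 1 ∧ ∀ a ∈ A, ∀ b, b ∉ A → G.Adj a b → a ∈ S ∨ b ∈ S := by
  classical
  have hsR : (0 : ℝ) < s := by exact_mod_cast hs0
  set E : Finset (V × V) := Finset.univ.filter (fun e => G.Adj e.1 e.2 ∧ e.1 ∈ A ∧ e.2 ∉ A) with hE
  set F : Finset (Finset V) := Finset.univ.filter
    (fun I => G.IsIndepSet (I : Set V) ∧ I.card = s) with hF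
  by_cases hF0 : F = ∅
  · refine ⟨Set.univ, ?_, fun a _ b _ _ => Or.inl (Set.mem_univ a)⟩
    refine al_le G fun T _ hT => ?_
    by_contra hbig
    push Not at hbig
    obtain ⟨I, hIT, hIcard⟩ := Finset.exists_subset_card_eq (show s ≤ T.card by omega)
    have : I ∈ F := by
      rw [hF, Finset.mem_filter]
      exact ⟨Finset.mem_univ _, Set.Pairwise.mono (by exact_mod_cast hIT) hT, hIcard⟩
    rw [hF0] at this
    simp at this
  have hFne := Finset.nonempty_iff_ne_empty.mpr hF0
  -- the game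
  let M : (E × F) → V → ℝ := fun j v =>
    ((if v = j.1.1.1 then 1 else 0) + (if v = j.1.1.2 then 1 else 0)) -
      2 / s * (if v ∈ j.2.1 then 1 else 0)
  rcases gordan M with ⟨p, hp0, hp⟩ | ⟨l, hl0, hl1, hl⟩
  · -- a cover
    obtain ⟨I₀, hI₀, hmax⟩ := Finset.exists_max_image F (fun I => ∑ v ∈ I, p v) hFne
    set τ := (∑ v ∈ I₀, p v) / s with hτ
    have hval : ∀ (e : E) (I : F), 2 / s * ∑ v ∈ I.1, p v < p e.1.1 + p e.1.2 := by
      intro e I
      have h1 := hp (e, I)
      have h2 : ∑ v, p v * M (e, I) v = (p e.1.1 + p e.1.2) - 2 / s * ∑ v ∈ I.1, p v := by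
        simp only [M, mul_sub, Finset.sum_sub_distrib]
        congr 1
        · simp [mul_add, Finset.sum_add_distrib]
        · rw [Finset.mul_sum]
          rw [← Finset.sum_filter_add_sum_filter_not Finset.univ (fun v => v ∈ I.1)]
          have h3 : ∑ v ∈ Finset.univ.filter (fun v => ¬ v ∈ I.1),
              p v * (2 / (s : ℝ) * (if v ∈ I.1 then 1 else 0)) = 0 := by
            refine Finset.sum_eq_zero fun v hv => ?_
            rw [if_neg (Finset.mem_filter.mp hv).2]
            ring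
          rw [h3, add_zero]
          have h4 : Finset.univ.filter (fun v => v ∈ I.1) = I.1 := by ext; simp
          rw [h4]
          refine Finset.sum_congr rfl fun v hv => ?_
          rw [if_pos hv]
          ring
      rw [h2] at h1
      linarith
    refine ⟨{v | τ < p v}, ?_, ?_⟩
    · refine al_le G fun T hTS hT => ?_
      by_contra hbig
      push Not at hbig
      obtain ⟨I, hIT, hIcard⟩ := Finset.exists_subset_card_eq (show s ≤ T.card by omega)
      have hIF : I ∈ F := by
        rw [hF, Finset.mem_filter]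
        exact ⟨Finset.mem_univ _, Set.Pairwise.mono (by exact_mod_cast hIT) hT, hIcard⟩
      have h1 : ∑ _v ∈ I, τ < ∑ v ∈ I, p v := by
        refine Finset.sum_lt_sum_of_nonempty ?_ ?_
        · rw [← Finset.card_pos, hIcard]; omega
        · intro v hv
          exact hTS (hIT hv)
      rw [Finset.sum_const, hIcard, nsmul_eq_mul, hτ, mul_div_cancel₀ _ hsR.ne'] at h1
      exact absurd (hmax I hIF) (not_le.mpr h1)
    · intro a ha b hb hab
      have he : (a, b) ∈ E := by
        rw [hE, Finset.mem_filter]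
        exact ⟨Finset.mem_univ _, hab, ha, hb⟩
      have h1 := hval ⟨(a, b), he⟩ ⟨I₀, hI₀⟩
      have h2 : 2 / s * ∑ v ∈ I₀, p v = 2 * τ := by rw [hτ]; ring
      simp only at h1
      rw [h2] at h1
      by_contra hcon
      push Not at hcon
      obtain ⟨h3, h4⟩ := hcon
      simp only [Set.mem_ofPred_eq, not_lt] at h3 h4
      linarith
  · -- sampling
    exfalso
    set ξ : V × V → ℝ := fun e => ∑ I : F, (if h : e ∈ E then l (⟨e, h⟩, I) else 0) with hξ
    set y : Finset V → ℝ := fun I => ∑ e : E, (if h : I ∈ F then l (e, ⟨I, h⟩) else 0) with hy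
    set γ : V → ℝ := fun v =>
      ∑ e ∈ E, ξ e * ((if v = e.1 then 1 else 0) + (if v = e.2 then 1 else 0)) with hγ
    set μ : V → ℝ := fun v => ∑ I ∈ F, y I * (if v ∈ I then 1 else 0) with hμ
    have hξ0 : ∀ e, 0 ≤ ξ e := fun e => Finset.sum_nonneg fun I _ => by
      split_ifs
      · exact hl0 _
      · exact le_rfl
    have hy0 : ∀ I, 0 ≤ y I := fun I => Finset.sum_nonneg fun e _ => by
      split_ifs
      · exact hl0 _
      · exact le_rfl
    have hξe : ∀ e : E, ξ e.1 = ∑ I : F, l (e, I) := by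
      intro e
      simp only [hξ]
      exact Finset.sum_congr rfl fun I _ => by rw [dif_pos e.2]
    have hyI : ∀ I : F, y I.1 = ∑ e : E, l (e, I) := by
      intro I
      simp only [hy]
      exact Finset.sum_congr rfl fun e _ => by rw [dif_pos I.2]
    have hξ1 : ∑ e ∈ E, ξ e = 1 := by
      rw [← Finset.sum_coe_sort E, ← hl1, Fintype.sum_prod_type]
      exact Finset.sum_congr rfl fun e _ => hξe e
    have hy1 : ∑ I ∈ F, y I = 1 := by
      rw [← Finset.sum_coe_sort F, ← hl1, Fintype.sum_prod_type_right]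
      exact Finset.sum_congr rfl fun I _ => hyI I
    have hγ0 : ∀ v, 0 ≤ γ v := fun v => Finset.sum_nonneg fun e _ => by
      refine mul_nonneg (hξ0 e) ?_
      split_ifs <;> norm_num
    have hμ0 : ∀ v, 0 ≤ μ v := fun v => Finset.sum_nonneg fun I _ => by
      refine mul_nonneg (hy0 I) ?_
      split_ifs <;> norm_num
    have hμ1 : ∀ v, μ v ≤ 1 := by
      intro v
      rw [← hy1]
      refine Finset.sum_le_sum fun I _ => ?_
      split_ifs
      · rw [mul_one]
      · rw [mul_zero]; exact hy0 I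
    have hγμ : ∀ v, γ v ≤ 2 / s * μ v := by
      intro v
      have h1 := hl v
      have h2 : ∑ j, l j * M j v = γ v - 2 / s * μ v := by
        have h3 : ∀ j : E × F, l j * M j v =
            l j * ((if v = j.1.1.1 then 1 else 0) + (if v = j.1.1.2 then 1 else 0)) -
            2 / s * (l j * (if v ∈ j.2.1 then 1 else 0)) := by
          intro j
          simp only [M]
          ring
        simp_rw [h3]
        rw [Finset.sum_sub_distrib, ← Finset.mul_sum]
        congr 1
        · rw [hγ]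
          simp only
          rw [← Finset.sum_coe_sort E, Fintype.sum_prod_type]
          refine Finset.sum_congr rfl fun e _ => ?_
          rw [hξe, Finset.sum_mul]
        · congr 1
          rw [hμ]
          simp only
          rw [← Finset.sum_coe_sort F, Fintype.sum_prod_type_right]
          refine Finset.sum_congr rfl fun I _ => ?_
          rw [hyI, Finset.sum_mul]
      rw [h2] at h1
      linarith
    have hγsum : ∑ v, γ v = 2 := by
      rw [hγ]
      simp only
      rw [Finset.sum_comm]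
      have : ∀ e ∈ E, ∑ v : V, ξ e * ((if v = e.1 then 1 else 0) + (if v = e.2 then 1 else 0)) =
          ξ e * 2 := by
        intro e _
        rw [← Finset.mul_sum, Finset.sum_add_distrib]
        simp
        norm_num
      rw [Finset.sum_congr rfl this, ← Finset.sum_mul, hξ1, one_mul]
    -- conflicts by adjacency
    have hadj : ∑ v, ∑ w, γ v * γ w * (if G.Adj v w then 1 else 0) ≤ 4 * δ := by
      have h1 : ∑ v, ∑ w, γ v * γ w * (if G.Adj v w then 1 else 0) ≤
          ∑ v, ∑ w, (2 / s * μ v) * (2 / s * μ w) * (if G.Adj v w then (1 : ℝ) else 0) := by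
        refine Finset.sum_le_sum fun v _ => Finset.sum_le_sum fun w _ => ?_
        refine mul_le_mul_of_nonneg_right ?_ (by split_ifs <;> norm_num)
        exact mul_le_mul (hγμ v) (hγμ w) (hγ0 w) (by have := hμ0 v; positivity)
      refine h1.trans ?_
      have h2 : ∑ v, ∑ w, (2 / s * μ v) * (2 / s * μ w) * (if G.Adj v w then (1 : ℝ) else 0) =
          4 / (s : ℝ) ^ 2 * ∑ I ∈ F, ∑ J ∈ F, y I * y J *
            ∑ v ∈ J, ((I.filter (fun x => G.Adj v x)).card : ℝ) := by
        have h4 : ∑ v, ∑ w, μ v * μ w * (if G.Adj v w then (1 : ℝ) else 0) =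
            ∑ I ∈ F, ∑ J ∈ F, y I * y J * ∑ v ∈ J, ∑ w ∈ I, (if G.Adj v w then (1 : ℝ) else 0) :=
          bilin_sets F y (fun v w => if G.Adj v w then (1 : ℝ) else 0)
        have h5 : ∀ (v : V) (I : Finset V), ∑ w ∈ I, (if G.Adj v w then (1 : ℝ) else 0) =
            ((I.filter (fun x => G.Adj v x)).card : ℝ) := by
          intro v I
          rw [← Finset.sum_filter, Finset.sum_const, nsmul_eq_mul, mul_one]
        simp_rw [h5] at h4
        rw [← h4]
        clear h4
        clear_value μ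
        rw [Finset.mul_sum]
        refine Finset.sum_congr rfl fun v _ => ?_
        rw [Finset.mul_sum]
        refine Finset.sum_congr rfl fun w _ => ?_
        ring
      rw [h2]
      have h3 : ∑ I ∈ F, ∑ J ∈ F, y I * y J *
            ∑ v ∈ J, ((I.filter (fun x => G.Adj v x)).card : ℝ) ≤ δ * (s : ℝ) ^ 2 := by
        calc ∑ I ∈ F, ∑ J ∈ F, y I * y J *
            ∑ v ∈ J, ((I.filter (fun x => G.Adj v x)).card : ℝ) ≤
            ∑ I ∈ F, ∑ J ∈ F, y I * y J * (δ * (s : ℝ) ^ 2) := by
              refine Finset.sum_le_sum fun I hI => Finset.sum_le_sum fun J hJ => ?_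
              refine mul_le_mul_of_nonneg_left ?_ (mul_nonneg (hy0 I) (hy0 J))
              rw [hF, Finset.mem_filter] at hI hJ
              exact kst G hr ht hG hI.2.1 hJ.2.1 hI.2.2 hJ.2.2 hδ hs
          _ = (∑ I ∈ F, y I) * (∑ J ∈ F, y J) * (δ * (s : ℝ) ^ 2) := by
              rw [Finset.sum_mul_sum, Finset.sum_mul]
              exact Finset.sum_congr rfl fun I _ => by rw [Finset.sum_mul]
          _ = δ * (s : ℝ) ^ 2 := by rw [hy1]; ring
      calc 4 / (s : ℝ) ^ 2 * ∑ I ∈ F, ∑ J ∈ F, y I * y J *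
            ∑ v ∈ J, ((I.filter (fun x => G.Adj v x)).card : ℝ) ≤
            4 / (s : ℝ) ^ 2 * (δ * (s : ℝ) ^ 2) := mul_le_mul_of_nonneg_left h3 (by positivity)
        _ = 4 * δ := by field_simp
    have heq : ∑ v, ∑ w, γ v * γ w * (if v = w then 1 else 0) ≤ 4 / s := by
      have h1 : ∑ v, ∑ w, γ v * γ w * (if v = w then (1 : ℝ) else 0) = ∑ v, γ v * γ v := by
        refine Finset.sum_congr rfl fun v _ => ?_
        simp
      rw [h1]
      calc ∑ v, γ v * γ v ≤ ∑ v, 2 / s * γ v := by
            refine Finset.sum_le_sum fun v _ => mul_le_mul_of_nonneg_right ?_ (hγ0 v)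
            calc γ v ≤ 2 / s * μ v := hγμ v
              _ ≤ 2 / s * 1 := mul_le_mul_of_nonneg_left (hμ1 v) (by positivity)
              _ = 2 / s := mul_one _
        _ = 4 / s := by rw [← Finset.mul_sum, hγsum]; ring
    -- Turan
    have hT := turan (Conf G) (fun e => Or.inl rfl) (by
      intro e f h
      unfold Conf at h ⊢
      rcases h with h | h | h | h | h | h
      · exact Or.inl h.symm
      · exact Or.inr (Or.inl h.symm)
      · exact Or.inr (Or.inr (Or.inl h.symm))
      · exact Or.inr (Or.inr (Or.inr (Or.inr (Or.inl h.symm))))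
      · exact Or.inr (Or.inr (Or.inr (Or.inl h.symm)))
      · exact Or.inr (Or.inr (Or.inr (Or.inr (Or.inr h.symm))))) ξ hξ0 k E (by
      intro T hTE hT
      refine hA T ⟨fun p hp => ?_, fun p hp q hq hpq => ?_⟩
      · exact (Finset.mem_filter.mp (hTE hp)).2
      · have h := hT p hp q hq hpq
        unfold Conf at h
        push Not at h
        exact ⟨h.1, h.2.1, h.2.2.1, h.2.2.2.1, h.2.2.2.2.2⟩)
    rw [hξ1] at hT
    have hconf : ∑ e ∈ E, ∑ f ∈ E, (if Conf G e f then ξ e * ξ f else 0) ≤ 4 * δ + 4 / s := by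
      have h1 : ∑ v, ∑ w, γ v * γ w * (if G.Adj v w then (1 : ℝ) else 0) = _ :=
        bilin (E := E) ξ (fun v w => (if G.Adj v w then 1 else 0))
      have h2 : ∑ v, ∑ w, γ v * γ w * (if v = w then (1 : ℝ) else 0) = _ :=
        bilin (E := E) ξ (fun v w => (if v = w then 1 else 0))
      refine le_trans ?_ (add_le_add hadj heq)
      rw [h1, h2, ← Finset.sum_add_distrib]
      refine Finset.sum_le_sum fun e _ => ?_
      rw [← Finset.sum_add_distrib]
      refine Finset.sum_le_sum fun f _ => ?_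
      have h0 : 0 ≤ ξ e * ξ f := mul_nonneg (hξ0 e) (hξ0 f)
      rw [← mul_add]
      have hnn : ∀ (P : Prop), (0 : ℝ) ≤ (if P then 1 else 0) := by
        intro P
        split_ifs <;> norm_num
      have hn1 := hnn (G.Adj e.1 f.1)
      have hn2 := hnn (G.Adj e.1 f.2)
      have hn3 := hnn (G.Adj e.2 f.1)
      have hn4 := hnn (G.Adj e.2 f.2)
      have hn5 := hnn (e.1 = f.1)
      have hn6 := hnn (e.1 = f.2)
      have hn7 := hnn (e.2 = f.1)
      have hn8 := hnn (e.2 = f.2)
      by_cases hc : Conf G e f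
      · rw [if_pos hc]
        refine le_mul_of_one_le_right h0 ?_
        unfold Conf at hc
        rcases hc with h | h | h | h | h | h
        · rw [if_pos h] at hn5 ⊢; linarith
        · rw [if_pos h] at hn8 ⊢; linarith
        · rw [if_pos h] at hn1 ⊢; linarith
        · rw [if_pos h] at hn2 ⊢; linarith
        · rw [if_pos h] at hn3 ⊢; linarith
        · rw [if_pos h] at hn4 ⊢; linarith
      · rw [if_neg hc]
        refine mul_nonneg h0 ?_
        linarith
    have h9 : (k : ℝ) * ∑ e ∈ E, ∑ f ∈ E, (if Conf G e f then ξ e * ξ f else 0) ≤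
        k * (4 * δ + 4 / s) := mul_le_mul_of_nonneg_left hconf (Nat.cast_nonneg _)
    linarith

end Pool.Agent.H29.BW
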